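import Pool.Agent.Q297.GGM.Main

/-!
# A complete axiomatization of the modal logic of general game models
-/

namespace Pool.Agent.Results.MP_4a7d17_lc.CompleteAxiomatization

open Pool.Agent.Q297.GGM

/-- For every finite set `N` of at least two players, the Hilbert system `Prov N` is sound and
complete for validity on general game models. -/
theorem result (N : Type) [Finite N] [Nontrivial N] (φ : Form N) :
    (Prov N φ ↔ Valid.{0} φ) ∧ (Prov N φ → ∀ M : GameModel.{1} N, ∀ s ∈ M.W, M.Sat φ s) :=
  ⟨⟨sound, complete⟩, fun h => sound h⟩

end Pool.Agent.Results.MP_4a7d17_lc.CompleteAxiomatization
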